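import Pool.Agent.Helper4.BT.Defs2
import Pool.Agent.Helper81.BT.UINT
import Pool.Agent.Helper7.BT.JJb
import Pool.Agent.Helper28.BT.FE1b

/-! Block BT-FE1c : the part `U₀ |u - bubbles|` of the outer field of the second bubble. -/

namespace Pool.Helper4.BT
open MeasureTheory Metric Set Laplacian InnerProductSpace

theorem FE1c_sqrtA_lip {μ : ℝ} (z y y' : E) :
    √(A μ z y') ≤ √(A μ z y) + ‖y' - y‖ := by
  apply Real.sqrt_le_iff.mpr
  refine ⟨by positivity, ?_⟩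
  have h1 : ‖y' - z‖ ≤ ‖y - z‖ + ‖y' - y‖ := by
    calc ‖y' - z‖ = ‖(y - z) + (y' - y)‖ := by congr 1; abel
      _ ≤ _ := norm_add_le _ _
  have h2 : ‖y - z‖ ≤ √(A μ z y) := by
    apply Real.le_sqrt_of_sq_le; unfold A; nlinarith [sq_nonneg μ]
  have h3 : √(A μ z y) ^ 2 = A μ z y := Real.sq_sqrt (by unfold A; positivity)
  have h4 := norm_nonneg (y' - y)
  have h5 : A μ z y' ≤ μ ^ 2 + (‖y - z‖ + ‖y' - y‖) ^ 2 := by
    unfold A
    have := pow_le_pow_left₀ (norm_nonneg (y' - z)) h1 2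
    linarith
  have h6 : A μ z y = μ ^ 2 + ‖y - z‖ ^ 2 := rfl
  nlinarith [mul_le_mul_of_nonneg_right h2 h4]

theorem FE1c_facts {k : ℕ} {Λ R C3 τ ω : ℝ} {p : E} {u : E → ℝ} {lam : ℝ} {mu : ℕ → ℝ}
    {z : ℕ → E} {sg : ℕ → ℝ} (h : Conf k Λ R C3 τ ω p u lam mu z sg) :
    0 < DD mu z ∧ DD mu z ≤ 1 ∧ A (mu 0) (z 0) (z 1) = DD mu z ^ 2 ∧
      tt mu z * DD mu z ^ 4 = 24 * mu 0 ^ 2 ∧ mu 0 ≤ DD mu z ∧ 0 ≤ tt mu z := by
  have hk := h.hk
  have hm0 : 0 < mu 0 := h.hmu 0 (by omega)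
  have hA : A (mu 0) (z 0) (z 1) = DD mu z ^ 2 := by
    unfold A DD
    rw [Real.sq_sqrt (by positivity), norm_sub_rev]
  have hpos : 0 < DD mu z := by
    unfold DD; positivity
  have h01 : ‖z 0 - z 1‖ ≤ 2 * ω := by
    have := h.hz 0 (by omega)
    have h1 := h.hz 1 (by omega)
    calc ‖z 0 - z 1‖ = ‖(z 0 - p) - (z 1 - p)‖ := by congr 1; abel
      _ ≤ ‖z 0 - p‖ + ‖z 1 - p‖ := norm_sub_le _ _
      _ ≤ 2 * ω := by linarith
  have hω := h.hω
  have hτ := h.hτ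
  have hmω := h.hmu0
  have hle : DD mu z ≤ 1 := by
    unfold DD
    have h2 : ‖z 0 - z 1‖ ^ 2 ≤ (2 * ω) ^ 2 := pow_le_pow_left₀ (norm_nonneg _) h01 2
    refine Real.sqrt_le_iff.mpr ⟨by norm_num, ?_⟩
    nlinarith
  refine ⟨hpos, hle, hA, ?_, ?_, ?_⟩
  · unfold tt U
    rw [hA]
    have : DD mu z ≠ 0 := hpos.ne'
    field_simp
  · unfold DD
    apply Real.le_sqrt_of_sq_le
    nlinarith [sq_nonneg ‖z 0 - z 1‖]
  · exact UINT_U_nonneg _ _ _

/-- The first bubble near the centre of the second one. -/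
theorem FE1c_U_le {μ D t : ℝ} (hμ : 0 < μ) (hD : 0 < D) (ht : t * D ^ 4 = 24 * μ ^ 2) (z y : E)
    (ha : 61 / 64 * D ≤ √(A μ z y)) : U μ z y ≤ 3 / 2 * t := by
  have hAp : 0 < A μ z y := UINT_A_pos hμ z y
  have h1 : (61 / 64 * D) ^ 2 ≤ A μ z y := by
    calc (61 / 64 * D) ^ 2 ≤ √(A μ z y) ^ 2 := pow_le_pow_left₀ (by positivity) ha 2
      _ = _ := Real.sq_sqrt hAp.le
  have h2 : ((61 / 64 * D) ^ 2) ^ 2 ≤ A μ z y ^ 2 := pow_le_pow_left₀ (by positivity) h1 2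
  have ht0 : 0 ≤ t := by
    have : 0 < D ^ 4 := by positivity
    by_contra hc
    push Not at hc
    nlinarith [sq_nonneg μ, mul_neg_of_neg_of_pos hc this]
  unfold U
  rw [div_le_iff₀ (by positivity), ← ht]
  nlinarith [mul_le_mul_of_nonneg_left h2 ht0, mul_nonneg ht0 (pow_nonneg hD.le 4)]

theorem FE1c_w_bound {k : ℕ} {Λ R C3 τ ω : ℝ} {p : E} {u : E → ℝ} {lam : ℝ} {mu : ℕ → ℝ}
    {z : ℕ → E} {sg : ℕ → ℝ} (h : Conf k Λ R C3 τ ω p u lam mu z sg) {y : E}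
    (hy : y ∈ closedBall p R) :
    |u y - bubbles k sg mu z y| ≤
      2 * C3 * (1 + U (mu 0) (z 0) y + ∑ l ∈ Finset.Ico 1 k, U (mu l) (z l) y) := by
  have h1 := h.hstar y hy
  have h2 : |bubbles k sg mu z y| ≤ ∑ l ∈ Finset.range k, U (mu l) (z l) y := by
    unfold bubbles
    refine (Finset.abs_sum_le_sum_abs _ _).trans (Finset.sum_le_sum fun l hl => ?_)
    rw [abs_mul, abs_of_nonneg (UINT_U_nonneg _ _ _)]
    rcases h.hsg l (Finset.mem_range.mp hl) with h' | h' <;> rw [h'] <;> simp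
  have h3 : ∑ l ∈ Finset.range k, U (mu l) (z l) y
      = U (mu 0) (z 0) y + ∑ l ∈ Finset.Ico 1 k, U (mu l) (z l) y := by
    have hk := h.hk
    rw [Finset.range_eq_Ico, Finset.sum_eq_sum_Ico_succ_bot (by omega)]
  have h4 : 0 ≤ ∑ l ∈ Finset.range k, U (mu l) (z l) y :=
    Finset.sum_nonneg fun l _ => UINT_U_nonneg _ _ _
  have h5 := abs_sub (u y) (bubbles k sg mu z y)
  have h6 := h.hC3
  rw [h3] at h1 h2 h4
  nlinarith

theorem FE1c_cont_w {k : ℕ} {Λ R C3 τ ω : ℝ} {p : E} {u : E → ℝ} {lam : ℝ} {mu : ℕ → ℝ}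
    {z : ℕ → E} {sg : ℕ → ℝ} (h : Conf k Λ R C3 τ ω p u lam mu z sg) :
    Continuous (fun y => u y - bubbles k sg mu z y) := by
  refine h.hu.continuous.sub ?_
  unfold bubbles
  exact continuous_finsetSum _ fun l hl =>
    continuous_const.mul (UINT_continuous_U (h.hmu l (Finset.mem_range.mp hl)) (z l))

/-- The core region. -/
theorem FE1c_core {k : ℕ} {Λ R C3 τ ω : ℝ} {p : E} {u : E → ℝ} {lam : ℝ} {mu : ℕ → ℝ}
    {z : ℕ → E} {sg : ℕ → ℝ} (h : Conf k Λ R C3 τ ω p u lam mu z sg)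
    (hω : ω * I0 ≤ τ ^ 12) (S : Set E) (hS : S ⊆ closedBall (z 0) (mu 0 / τ)) :
    ∫⁻ y in S, ENNReal.ofReal (U (mu 0) (z 0) y * |u y - bubbles k sg mu z y|)
      ≤ ENNReal.ofReal (τ ^ 6 * mu 0 ^ 2) := by
  have hk := h.hk
  have hm0 : 0 < mu 0 := h.hmu 0 (by omega)
  have hcU := UINT_continuous_U hm0 (z 0)
  have hcw := FE1c_cont_w h
  have hI0 := I0_pos
  have hτ := h.hτ.1
  have hcomp := isCompact_closedBall (z 0) (mu 0 / τ)
  have hint : IntegrableOn (fun y => U (mu 0) (z 0) y * |u y - bubbles k sg mu z y|)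
      (closedBall (z 0) (mu 0 / τ)) :=
    (hcU.mul hcw.abs).continuousOn.integrableOn_compact hcomp
  refine (lintegral_mono_set hS).trans ?_
  rw [← ofReal_integral_eq_lintegral_ofReal hint
    (Filter.Eventually.of_forall fun y => mul_nonneg (UINT_U_nonneg _ _ _) (abs_nonneg _))]
  apply ENNReal.ofReal_le_ofReal
  have hcore := h.hcore 0 (by norm_num)
  obtain ⟨hU1, hU2⟩ := integral_U_sq hm0 (z 0)
  have hint2 : IntegrableOn (fun y => (u y - bubbles k sg mu z y) ^ 2)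
      (closedBall (z 0) (mu 0 / τ)) :=
    (hcw.pow 2).continuousOn.integrableOn_compact hcomp
  have hintU : IntegrableOn (fun y => U (mu 0) (z 0) y ^ 2) (closedBall (z 0) (mu 0 / τ)) :=
    hU1.integrableOn
  have hle : ∫ y in closedBall (z 0) (mu 0 / τ), U (mu 0) (z 0) y ^ 2 ≤ I0 * mu 0 ^ 2 := by
    rw [← hU2]
    exact setIntegral_le_integral hU1 (Filter.Eventually.of_forall fun y => by positivity)
  set a : ℝ := τ ^ 6 / I0 with ha
  have hapos : 0 < a := by positivity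
  calc ∫ y in closedBall (z 0) (mu 0 / τ), U (mu 0) (z 0) y * |u y - bubbles k sg mu z y|
      ≤ ∫ y in closedBall (z 0) (mu 0 / τ),
          (a / 2 * U (mu 0) (z 0) y ^ 2 + 1 / (2 * a) * (u y - bubbles k sg mu z y) ^ 2) := by
        refine integral_mono hint ((hintU.const_mul _).add (hint2.const_mul _)) fun y => ?_
        have h1 : 0 ≤ (a * U (mu 0) (z 0) y - |u y - bubbles k sg mu z y|) ^ 2 := sq_nonneg _
        have h2 : |u y - bubbles k sg mu z y| ^ 2 = (u y - bubbles k sg mu z y) ^ 2 := sq_abs _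
        have h3 : a / 2 * U (mu 0) (z 0) y ^ 2 + 1 / (2 * a) * (u y - bubbles k sg mu z y) ^ 2
            - U (mu 0) (z 0) y * |u y - bubbles k sg mu z y|
            = 1 / (2 * a) * (a * U (mu 0) (z 0) y - |u y - bubbles k sg mu z y|) ^ 2 := by
          rw [← h2]; field_simp; ring
        have h4 : 0 ≤ 1 / (2 * a) * (a * U (mu 0) (z 0) y - |u y - bubbles k sg mu z y|) ^ 2 := by
          positivity
        show U (mu 0) (z 0) y * |u y - bubbles k sg mu z y| ≤ _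
        linarith
    _ = a / 2 * (∫ y in closedBall (z 0) (mu 0 / τ), U (mu 0) (z 0) y ^ 2)
          + 1 / (2 * a) * ∫ y in closedBall (z 0) (mu 0 / τ), (u y - bubbles k sg mu z y) ^ 2 := by
        rw [integral_add (hintU.const_mul _) (hint2.const_mul _), integral_const_mul,
          integral_const_mul]
    _ ≤ a / 2 * (I0 * mu 0 ^ 2) + 1 / (2 * a) * (ω * mu 0 ^ 2) := by gcongr
    _ ≤ τ ^ 6 * mu 0 ^ 2 := by
        have h1 : a / 2 * (I0 * mu 0 ^ 2) = τ ^ 6 * mu 0 ^ 2 / 2 := by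
          rw [ha]; field_simp
        have h2 : 1 / (2 * a) * (ω * mu 0 ^ 2) = (ω * I0) * (mu 0 ^ 2 / (2 * τ ^ 6)) := by
          rw [ha]; field_simp
        have h3 : (ω * I0) * (mu 0 ^ 2 / (2 * τ ^ 6)) ≤ τ ^ 12 * (mu 0 ^ 2 / (2 * τ ^ 6)) := by
          gcongr
        have h4 : τ ^ 12 * (mu 0 ^ 2 / (2 * τ ^ 6)) = τ ^ 6 * mu 0 ^ 2 / 2 := by
          field_simp
        linarith

/-- Pointwise majorant by five functions. -/
theorem FE1c_major {k : ℕ} {Λ R C3 τ ω : ℝ} {p : E} {u : E → ℝ} {lam : ℝ} {mu : ℕ → ℝ}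
    {z : ℕ → E} {sg : ℕ → ℝ} {ρ : ℝ} (h : Conf k Λ R C3 τ ω p u lam mu z sg)
    (x : E) (hx : 31 / 32 * DD mu z ≤ √(A (mu 0) (z 0) x)) (y : E) :
    (SS R p (z 1) ρ).indicator (fun y =>
            U (mu 0) (z 0) y * |u y - bubbles k sg mu z y|) y
      ≤ 2 * C3 * U (mu 0) (z 0) y + (2 * C3 * ({y | 1 / τ * mu 0 ≤ ‖y - z 0‖}.indicator
            (fun y => U (mu 0) (z 0) y ^ 2)) y
        + (2 * C3 * ((SS R p (z 1) ρ).indicator (fun y =>
            U (mu 0) (z 0) y * ∑ l ∈ Finset.Ico 1 k, U (mu l) (z l) y)) y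
        + ((closedBall x (τ * DD mu z)).indicator (fun _ => 2 * C3 * (3 / 2 * tt mu z) ^ 2) y
        + (closedBall (z 0) (mu 0 / τ) \ ball x (τ * DD mu z)).indicator (fun y =>
            U (mu 0) (z 0) y * |u y - bubbles k sg mu z y|) y))) := by
  obtain ⟨hD0, hD1, hA, ht, hmD, ht0⟩ := FE1c_facts h
  have hk := h.hk
  have hm0 : 0 < mu 0 := h.hmu 0 (by omega)
  have hC3 := h.hC3
  have hτ := h.hτ
  have hτ0 := hτ.1
  have hC : 0 ≤ 2 * C3 := by linarith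
  have ha : 0 ≤ U (mu 0) (z 0) y := UINT_U_nonneg _ _ _
  have hS : 0 ≤ ∑ l ∈ Finset.Ico 1 k, U (mu l) (z l) y :=
    Finset.sum_nonneg fun l _ => UINT_U_nonneg _ _ _
  have t1 : 0 ≤ 2 * C3 * U (mu 0) (z 0) y := mul_nonneg hC ha
  have t2 : 0 ≤ 2 * C3 * ({y | 1 / τ * mu 0 ≤ ‖y - z 0‖}.indicator
            (fun y => U (mu 0) (z 0) y ^ 2)) y :=
    mul_nonneg hC (indicator_nonneg (fun y _ => sq_nonneg _) y)
  have t3 : 0 ≤ 2 * C3 * ((SS R p (z 1) ρ).indicator (fun y =>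
            U (mu 0) (z 0) y * ∑ l ∈ Finset.Ico 1 k, U (mu l) (z l) y)) y :=
    mul_nonneg hC (indicator_nonneg (fun y _ => mul_nonneg (UINT_U_nonneg _ _ _)
      (Finset.sum_nonneg fun l _ => UINT_U_nonneg _ _ _)) y)
  have t4 : 0 ≤ (closedBall x (τ * DD mu z)).indicator
      (fun _ : E => 2 * C3 * (3 / 2 * tt mu z) ^ 2) y :=
    indicator_nonneg (fun y _ => by positivity) y
  have t5 : 0 ≤ (closedBall (z 0) (mu 0 / τ) \ ball x (τ * DD mu z)).indicator (fun y =>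
            U (mu 0) (z 0) y * |u y - bubbles k sg mu z y|) y :=
    indicator_nonneg (fun y _ => mul_nonneg (UINT_U_nonneg _ _ _) (abs_nonneg _)) y
  by_cases hy : y ∈ SS R p (z 1) ρ
  · rw [indicator_of_mem hy] at t3 ⊢
    have hyR : y ∈ closedBall p R := ball_subset_closedBall hy.1
    have hb := FE1c_w_bound h hyR
    have hb' := mul_le_mul_of_nonneg_left hb ha
    by_cases h1 : 1 / τ * mu 0 ≤ ‖y - z 0‖
    · rw [indicator_of_mem (show y ∈ {y | 1 / τ * mu 0 ≤ ‖y - z 0‖} from h1),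
        indicator_of_mem hy]
      nlinarith
    · by_cases h2 : y ∈ closedBall x (τ * DD mu z)
      · rw [indicator_of_mem h2, indicator_of_mem hy]
        have h3 : U (mu 0) (z 0) y ≤ 3 / 2 * tt mu z := by
          apply FE1c_U_le hm0 hD0 ht
          have h4 := FE1c_sqrtA_lip (μ := mu 0) (z 0) y x
          have h5 : ‖x - y‖ ≤ τ * DD mu z := by
            rw [← dist_eq_norm, dist_comm]; exact h2
          nlinarith
        have h6 : U (mu 0) (z 0) y ^ 2 ≤ (3 / 2 * tt mu z) ^ 2 := pow_le_pow_left₀ ha h3 2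
        nlinarith
      · have h3 : y ∈ closedBall (z 0) (mu 0 / τ) \ ball x (τ * DD mu z) := by
          refine ⟨?_, fun hc => h2 (ball_subset_closedBall hc)⟩
          rw [mem_closedBall, dist_eq_norm]
          push Not at h1
          rw [div_eq_mul_one_div, mul_comm]
          exact h1.le
        rw [indicator_of_mem h3, indicator_of_mem hy]
        linarith
  · rw [indicator_of_notMem hy]
    linarith

theorem FE1c_J5 {m : ℕ} {g1 g2 g3 g4 g5 : E → ℝ} (h2 : Measurable g2) (h3 : Measurable g3)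
    (h4 : Measurable g4) (h5 : Measurable g5) {a1 a2 a3 a4 a5 B : ℝ} {x : E}
    (h1' : J m g1 x ≤ ENNReal.ofReal a1) (h2' : J m g2 x ≤ ENNReal.ofReal a2)
    (h3' : J m g3 x ≤ ENNReal.ofReal a3) (h4' : J m g4 x ≤ ENNReal.ofReal a4)
    (h5' : J m g5 x ≤ ENNReal.ofReal a5) (p1 : 0 ≤ a1) (p2 : 0 ≤ a2) (p3 : 0 ≤ a3) (p4 : 0 ≤ a4)
    (p5 : 0 ≤ a5) (hB : a1 + (a2 + (a3 + (a4 + a5))) ≤ B) :
    J m (fun y => g1 y + (g2 y + (g3 y + (g4 y + g5 y)))) x ≤ ENNReal.ofReal B := by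
  refine le_trans ?_ (ENNReal.ofReal_le_ofReal hB)
  rw [ENNReal.ofReal_add p1 (by positivity), ENNReal.ofReal_add p2 (by positivity),
    ENNReal.ofReal_add p3 (by positivity), ENNReal.ofReal_add p4 (by positivity)]
  refine (J_add_le g1 _ (h2.add (h3.add (h4.add h5))) x).trans (add_le_add h1' ?_)
  refine (J_add_le g2 _ (h3.add (h4.add h5)) x).trans (add_le_add h2' ?_)
  refine (J_add_le g3 _ (h4.add h5) x).trans (add_le_add h3' ?_)
  exact (J_add_le g4 _ h5 x).trans (add_le_add h4' h5')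

theorem FE1c_Jc {m : ℕ} {c a : ℝ} (hc : 0 ≤ c) {f : E → ℝ} {x : E}
    (h : J m f x ≤ ENNReal.ofReal a) : J m (fun y => c * f y) x ≤ ENNReal.ofReal (c * a) := by
  rw [J_const_mul c hc, ENNReal.ofReal_mul hc]
  gcongr

theorem fe1_c : ∀ (k : ℕ) (Λ R C3 : ℝ), ∃ C : ℝ, 0 < C ∧ ∀ τ : ℝ, 0 < τ → τ ≤ 1 / 64 →
    ∃ ω0 : ℝ, 0 < ω0 ∧ ∀ (ω : ℝ) (p : E) (u : E → ℝ) (lam : ℝ) (mu : ℕ → ℝ) (z : ℕ → E)
      (sg : ℕ → ℝ) (ρ : ℝ), ω ≤ ω0 → Conf k Λ R C3 τ ω p u lam mu z sg → Rho1 k τ mu z ρ →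
      ∀ x ∈ closedBall (z 1) (2 * ρ),
      J 4 ((SS R p (z 1) ρ).indicator (fun y =>
            U (mu 0) (z 0) y * |u y - bubbles k sg mu z y|)) x
        ≤ ENNReal.ofReal (C * (1 + τ * tt mu z)) ∧
      J 5 ((SS R p (z 1) ρ).indicator (fun y =>
            U (mu 0) (z 0) y * |u y - bubbles k sg mu z y|)) x
        ≤ ENNReal.ofReal (C * (τ * tt mu z + (mu 0 / DD mu z) ^ 2) / DD mu z) := by
  intro k Λ R C3
  rcases lt_or_ge C3 1 with hC3 | hC3
  · refine ⟨1, one_pos, fun τ _ _ => ⟨1, one_pos, ?_⟩⟩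
    intro ω p u lam mu z sg ρ _ h
    exact absurd h.hC3 (not_le.mpr hC3)
  obtain ⟨C1, hC1, hJU⟩ := J_U
  obtain ⟨C2, hC2, hJT⟩ := J_U_sq_tail
  obtain ⟨Cb, hCb, hfb⟩ := fe1_b k Λ R C3
  obtain ⟨C4, hC4, hJB⟩ := J_ball
  have hI0 := I0_pos
  refine ⟨8 * C3 * C1 + 6 * C3 * C2 + 2 * C3 * Cb + 108 * C3 * C4 + 1, by positivity, ?_⟩
  intro τ hτ0 hτ1
  obtain ⟨ωb, hωb, hfb⟩ := hfb τ hτ0 hτ1
  refine ⟨min ωb (τ ^ 12 / I0), lt_min hωb (by positivity), ?_⟩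
  intro ω p u lam mu z sg ρ hω h hr x hx
  obtain ⟨hb4, hb5⟩ := hfb ω p u lam mu z sg ρ (hω.trans (min_le_left _ _)) h hr x hx
  have hωI : ω * I0 ≤ τ ^ 12 := by
    have := hω.trans (min_le_right _ _)
    rwa [le_div_iff₀ hI0] at this
  obtain ⟨hD0, hD1, hA, ht, hmD, ht0⟩ := FE1c_facts h
  have hk := h.hk
  have hm0 : 0 < mu 0 := h.hmu 0 (by omega)
  set D := DD mu z with hD
  set t := tt mu z with htt
  have hsA : 31 / 32 * D ≤ √(A (mu 0) (z 0) x) := by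
    have h1 := FE1c_sqrtA_lip (μ := mu 0) (z 0) x (z 1)
    rw [hA, Real.sqrt_sq hD0.le] at h1
    have h2 : ‖z 1 - x‖ ≤ 2 * ρ := by
      rw [← dist_eq_norm, dist_comm]; exact hx
    have h3 := hr.le
    nlinarith
  have hUx : U (mu 0) (z 0) x ≤ 3 / 2 * t := FE1c_U_le hm0 hD0 ht _ _ (by linarith)
  have hUx0 : 0 ≤ U (mu 0) (z 0) x := UINT_U_nonneg _ _ _
  have hAx : 0 < A (mu 0) (z 0) x := UINT_A_pos hm0 _ _
  have hsp : 0 < √(A (mu 0) (z 0) x) := Real.sqrt_pos.mpr hAx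
  have hA2 : D ^ 2 / 2 ≤ A (mu 0) (z 0) x := by
    have h1 : (31 / 32 * D) ^ 2 ≤ √(A (mu 0) (z 0) x) ^ 2 :=
      pow_le_pow_left₀ (by positivity) hsA 2
    rw [Real.sq_sqrt hAx.le] at h1
    nlinarith
  have hsD : D / 2 ≤ √(A (mu 0) (z 0) x) := by linarith
  set q : ℝ := (mu 0 / D) ^ 2 with hq
  have hq1 : q ≤ 1 := by
    rw [hq]
    have : mu 0 / D ≤ 1 := (div_le_one hD0).mpr hmD
    exact pow_le_one₀ (by positivity) this
  have hq0 : 0 ≤ q := by positivity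
  have htD : t * D ^ 2 = 24 * q := by
    rw [hq]
    field_simp
    linarith
  have hmaj := FE1c_major (ρ := ρ) h x hsA
  have hJm : ∀ m, J m ((SS R p (z 1) ρ).indicator (fun y =>
            U (mu 0) (z 0) y * |u y - bubbles k sg mu z y|)) x ≤ _ := fun m => J_mono hmaj x
  have hcU := UINT_continuous_U hm0 (z 0)
  have hcw := FE1c_cont_w h
  have hmSS : MeasurableSet (SS R p (z 1) ρ) := measurableSet_ball.diff measurableSet_ball
  have hcont : ∀ l ∈ Finset.Ico 1 k, Continuous (U (mu l) (z l)) := fun l hl =>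
    UINT_continuous_U (h.hmu l (Finset.mem_Ico.mp hl).2) (z l)
  have hmtail : MeasurableSet {y : E | 1 / τ * mu 0 ≤ ‖y - z 0‖} :=
    measurableSet_le measurable_const (by fun_prop)
  have m2 : Measurable (fun y => 2 * C3 * ({y | 1 / τ * mu 0 ≤ ‖y - z 0‖}.indicator
            (fun y => U (mu 0) (z 0) y ^ 2)) y) :=
    ((hcU.pow 2).measurable.indicator hmtail).const_mul _
  have m3 : Measurable (fun y => 2 * C3 * ((SS R p (z 1) ρ).indicator (fun y =>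
            U (mu 0) (z 0) y * ∑ l ∈ Finset.Ico 1 k, U (mu l) (z l) y)) y) :=
    ((hcU.mul (continuous_finsetSum _ hcont)).measurable.indicator hmSS).const_mul _
  have m4 : Measurable ((closedBall x (τ * D)).indicator
      (fun _ : E => 2 * C3 * (3 / 2 * t) ^ 2)) :=
    measurable_const.indicator measurableSet_closedBall
  have m5 : Measurable ((closedBall (z 0) (mu 0 / τ) \ ball x (τ * D)).indicator (fun y =>
            U (mu 0) (z 0) y * |u y - bubbles k sg mu z y|)) :=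
    (hcU.mul hcw.abs).measurable.indicator (measurableSet_closedBall.diff measurableSet_ball)
  have hc : 0 ≤ 2 * C3 := by linarith
  have hK : (1 : ℝ) ≤ 1 / τ := by rw [le_div_iff₀ hτ0]; linarith
  obtain ⟨hU4, hU5⟩ := hJU (mu 0) (z 0) x hm0
  obtain ⟨hT4, hT5⟩ := hJT (mu 0) (1 / τ) (z 0) x hm0 hK
  have hτD : 0 < τ * D := by positivity
  have hM : 0 ≤ 2 * C3 * (3 / 2 * t) ^ 2 := by positivity
  have hB4 := hJB 4 x x (τ * D) _ (Or.inl rfl) hτD hM
  have hB5 := hJB 5 x x (τ * D) _ (Or.inr rfl) hτD hM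
  have hfar : ∀ m, J m ((closedBall (z 0) (mu 0 / τ) \ ball x (τ * D)).indicator (fun y =>
            U (mu 0) (z 0) y * |u y - bubbles k sg mu z y|)) x
      ≤ ENNReal.ofReal (τ ^ 6 * mu 0 ^ 2 / (τ * D) ^ m) := by
    intro m
    refine J_far _ (fun y => mul_nonneg (UINT_U_nonneg _ _ _) (abs_nonneg _)) _
      (measurableSet_closedBall.diff measurableSet_ball) x _ _ hτD (by positivity) ?_ ?_
    · intro y hy
      have := hy.2
      rw [mem_ball, not_lt, dist_comm, dist_eq_norm] at this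
      exact this
    · exact FE1c_core h hωI _ sdiff_subset
  have hτt : 0 ≤ τ * t := mul_nonneg hτ0.le ht0
  have b5 : τ * t * (C3 * C4) * τ ≤ τ * t * (C3 * C4) * 1 := by gcongr; linarith
  constructor
  · refine (hJm 4).trans (FE1c_J5 m2 m3 m4 m5 (FE1c_Jc hc hU4) (FE1c_Jc hc hT4) (FE1c_Jc hc hb4)
      hB4 (hfar 4) (by positivity) (by positivity) (by positivity) (by positivity)
      (by positivity) ?_)
    have e1 : 2 * C3 * (C1 * mu 0 ^ 2 / A (mu 0) (z 0) x) ≤ 4 * (C3 * C1) := by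
      have : mu 0 ^ 2 / A (mu 0) (z 0) x ≤ 2 := by
        rw [div_le_iff₀ hAx]
        nlinarith
      have e : 2 * C3 * (C1 * mu 0 ^ 2 / A (mu 0) (z 0) x)
          = 2 * (C3 * C1) * (mu 0 ^ 2 / A (mu 0) (z 0) x) := by ring
      rw [e]
      have : 2 * (C3 * C1) * (mu 0 ^ 2 / A (mu 0) (z 0) x) ≤ 2 * (C3 * C1) * 2 := by gcongr
      linarith
    have e2 : 2 * C3 * (C2 / (1 / τ) * U (mu 0) (z 0) x) ≤ 3 * (C3 * C2) * (τ * t) := by
      have e : 2 * C3 * (C2 / (1 / τ) * U (mu 0) (z 0) x)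
          = 2 * (C3 * C2) * τ * U (mu 0) (z 0) x := by field_simp
      rw [e]
      have : 2 * (C3 * C2) * τ * U (mu 0) (z 0) x ≤ 2 * (C3 * C2) * τ * (3 / 2 * t) := by gcongr
      linarith
    have e4 : C4 * (2 * C3 * (3 / 2 * t) ^ 2) * (τ * D) ^ (6 - 4) ≤ 108 * (C3 * C4) * (τ * t) := by
      have e : C4 * (2 * C3 * (3 / 2 * t) ^ 2) * (τ * D) ^ (6 - 4)
          = 9 / 2 * (C3 * C4) * (τ * t) * τ * (t * D ^ 2) := by norm_num; ring
      rw [e, htD]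
      have : 9 / 2 * (C3 * C4) * (τ * t) * τ * (24 * q) ≤ 9 / 2 * (C3 * C4) * (τ * t) * 1 * (24 * 1) := by
        gcongr
        linarith
      linarith
    have e5 : τ ^ 6 * mu 0 ^ 2 / (τ * D) ^ 4 ≤ τ * t := by
      rw [div_le_iff₀ (by positivity)]
      have e : τ * t * (τ * D) ^ 4 = τ ^ 5 * (t * D ^ 4) := by ring
      rw [e, ht]
      have : τ ^ 6 * mu 0 ^ 2 = τ * (τ ^ 5 * mu 0 ^ 2) := by ring
      rw [this]
      have h1 : 0 ≤ τ ^ 5 * mu 0 ^ 2 := by positivity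
      nlinarith
    have p1 : 0 ≤ C3 * C1 := by positivity
    have p2 : 0 ≤ C3 * C2 := by positivity
    have p3 : 0 ≤ C3 * Cb := by positivity
    have p4 : 0 ≤ C3 * C4 := by positivity
    nlinarith [mul_nonneg p1 hτt, mul_nonneg p2 hτt, mul_nonneg p3 hτt, mul_nonneg p4 hτt]
  · refine (hJm 5).trans (FE1c_J5 m2 m3 m4 m5 (FE1c_Jc hc hU5) (FE1c_Jc hc hT5) (FE1c_Jc hc hb5)
      hB5 (hfar 5) (by positivity) (by positivity) (by positivity) (by positivity)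
      (by positivity) ?_)
    have e1 : 2 * C3 * (C1 * mu 0 ^ 2 / (A (mu 0) (z 0) x * √(A (mu 0) (z 0) x)))
        ≤ 8 * (C3 * C1) * q / D := by
      have h1 : mu 0 ^ 2 / (A (mu 0) (z 0) x * √(A (mu 0) (z 0) x)) ≤ 4 * q / D := by
        calc mu 0 ^ 2 / (A (mu 0) (z 0) x * √(A (mu 0) (z 0) x))
            ≤ mu 0 ^ 2 / (D ^ 2 / 2 * (D / 2)) := by gcongr
          _ = 4 * q / D := by rw [hq]; field_simp; ring
      have e : 2 * C3 * (C1 * mu 0 ^ 2 / (A (mu 0) (z 0) x * √(A (mu 0) (z 0) x)))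
          = 2 * (C3 * C1) * (mu 0 ^ 2 / (A (mu 0) (z 0) x * √(A (mu 0) (z 0) x))) := by ring
      rw [e]
      calc 2 * (C3 * C1) * (mu 0 ^ 2 / (A (mu 0) (z 0) x * √(A (mu 0) (z 0) x)))
          ≤ 2 * (C3 * C1) * (4 * q / D) := by gcongr
        _ = _ := by ring
    have e2 : 2 * C3 * (C2 / (1 / τ) * U (mu 0) (z 0) x / √(A (mu 0) (z 0) x))
        ≤ 6 * (C3 * C2) * (τ * t) / D := by
      have e : 2 * C3 * (C2 / (1 / τ) * U (mu 0) (z 0) x / √(A (mu 0) (z 0) x))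
          = 2 * (C3 * C2) * τ * (U (mu 0) (z 0) x / √(A (mu 0) (z 0) x)) := by
        field_simp
      rw [e]
      calc 2 * (C3 * C2) * τ * (U (mu 0) (z 0) x / √(A (mu 0) (z 0) x))
          ≤ 2 * (C3 * C2) * τ * (3 / 2 * t / (D / 2)) := by gcongr
        _ = _ := by ring
    have e4 : C4 * (2 * C3 * (3 / 2 * t) ^ 2) * (τ * D) ^ (6 - 5)
        ≤ 108 * (C3 * C4) * (τ * t) / D := by
      have e : C4 * (2 * C3 * (3 / 2 * t) ^ 2) * (τ * D) ^ (6 - 5)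
          = 9 / 2 * (C3 * C4) * (τ * t) * (t * D ^ 2) / D := by
        rw [show (6 - 5 : ℕ) = 1 from rfl, pow_one]
        field_simp
        ring
      rw [e, htD]
      have : 9 / 2 * (C3 * C4) * (τ * t) * (24 * q) ≤ 9 / 2 * (C3 * C4) * (τ * t) * (24 * 1) := by
        gcongr
      exact div_le_div_of_nonneg_right (this.trans (by linarith)) hD0.le
    have e5 : τ ^ 6 * mu 0 ^ 2 / (τ * D) ^ 5 ≤ τ * t / D := by
      rw [div_le_div_iff₀ (by positivity) hD0]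
      have e : τ * t * (τ * D) ^ 5 = τ ^ 6 * (t * D ^ 4) * D := by ring
      rw [e, ht]
      have h1 : 0 ≤ τ ^ 6 * mu 0 ^ 2 * D := by positivity
      nlinarith
    have p1 : 0 ≤ C3 * C1 := by positivity
    have p2 : 0 ≤ C3 * C2 := by positivity
    have p3 : 0 ≤ C3 * Cb := by positivity
    have p4 : 0 ≤ C3 * C4 := by positivity
    have e3 : 2 * C3 * (Cb * τ * t / D) = 2 * (C3 * Cb) * (τ * t) / D := by ring
    rw [e3]
    have hsum : 8 * (C3 * C1) * q / D + (6 * (C3 * C2) * (τ * t) / D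
        + (2 * (C3 * Cb) * (τ * t) / D + (108 * (C3 * C4) * (τ * t) / D + τ * t / D)))
        ≤ (8 * C3 * C1 + 6 * C3 * C2 + 2 * C3 * Cb + 108 * C3 * C4 + 1) * (τ * t + q) / D := by
      rw [← add_div, ← add_div, ← add_div, ← add_div]
      gcongr
      nlinarith [mul_nonneg p1 hτt, mul_nonneg p2 hτt, mul_nonneg p3 hτt, mul_nonneg p4 hτt,
        mul_nonneg p1 hq0, mul_nonneg p2 hq0, mul_nonneg p3 hq0, mul_nonneg p4 hq0]
    linarith

end Pool.Helper4.BT
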